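import Pool.Agent.Run7.h664.E3.Key

set_option autoImplicit false

open MeasureTheory Set Complex

namespace Run7.h664.E3

open Run7.h148.E3

/-- a function with a time derivative of zero mean has constant mean -/
theorem cons_mean {f H : ℝ → ℂ → ℝ}
    (hf : ContinuousOn (fun q : ℝ × ℂ => f q.1 q.2) (Ici 0 ×ˢ univ))
    (hH : ContinuousOn (fun q : ℝ × ℂ => H q.1 q.2) (Ici 0 ×ˢ univ))
    (hd : ∀ t, 0 < t → ∀ z, HasDerivAt (fun s => f s z) (H t z) t)
    (h0 : ∀ t, 0 ≤ t → ∫ z in St, H t z = 0) {t : ℝ} (ht : 0 ≤ t) :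
    ∫ z in St, f t z = ∫ z in St, f 0 z := by
  have cf : ∀ s, 0 ≤ s → Continuous (f s) := fun s hs =>
    hf.comp_continuous (f := fun z : ℂ => (s, z)) (by fun_prop) (fun _ => ⟨hs, trivial⟩)
  have h1 : ∀ z, f t z - f 0 z = ∫ s in (0:ℝ)..t, H s z := by
    intro z
    have hc : ContinuousOn (fun s => H s z) (Icc 0 t) :=
      hH.comp (f := fun s : ℝ => (s, z)) (by fun_prop) (fun s hs => ⟨hs.1, trivial⟩)
    rw [intervalIntegral.integral_eq_sub_of_hasDerivAt_of_le ht
      (f := fun s => f s z) (hf.comp (f := fun s : ℝ => (s, z)) (by fun_prop)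
        (fun s hs => ⟨hs.1, trivial⟩)) (fun s hs => hd s hs.1 z)
      (by rw [intervalIntegrable_iff_integrableOn_Icc_of_le ht]
          exact hc.integrableOn_compact isCompact_Icc)]
  have h2 : ∫ s in (0:ℝ)..t, ∫ z in St, H s z = ∫ z in St, ∫ s in (0:ℝ)..t, H s z := by
    refine intervalIntegral_integral_swap ?_
    rw [Measure.prod_restrict]
    have : IntegrableOn (fun q : ℝ × ℂ => H q.1 q.2) (Icc 0 t ×ˢ Sc) (volume.prod volume) := by
      refine ContinuousOn.integrableOn_compact (isCompact_Icc.prod Sc_comp) ?_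
      exact hH.mono (fun q hq => ⟨hq.1.1, trivial⟩)
    refine this.mono_set (prod_mono ?_ St_sub)
    rw [uIoc_of_le ht]; exact Ioc_subset_Icc_self
  have h3 : ∫ s in (0:ℝ)..t, ∫ z in St, H s z = 0 := by
    have : ∫ s in (0:ℝ)..t, ∫ z in St, H s z = ∫ s in (0:ℝ)..t, (0:ℝ) := by
      refine intervalIntegral.integral_congr ?_
      intro s hs
      rw [uIcc_of_le ht] at hs
      exact h0 s hs.1
    rw [this]; simp
  have h4 : ∫ z in St, (f t z - f 0 z) = 0 := by
    simp_rw [h1]
    rw [← h2, h3]
  rw [integral_sub (intOn_St (cf t ht).continuousOn) (intOn_St (cf 0 le_rfl).continuousOn)] at h4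
  linarith

section slices

variable {E : Type*} [NormedAddCommGroup E] [NormedSpace ℝ E] {f : ℝ → ℂ → E}

theorem slice_smooth (hf : ContDiffOn ℝ 1 (fun q : ℝ × ℂ => f q.1 q.2) (Ici 0 ×ˢ univ)) {t : ℝ}
    (ht : 0 ≤ t) : ContDiff ℝ 1 (f t) :=
  hf.comp_contDiff (f := fun z : ℂ => (t, z)) (by fun_prop) (fun _ => ⟨ht, trivial⟩)

theorem slice_fderiv (hf : ContDiffOn ℝ 1 (fun q : ℝ × ℂ => f q.1 q.2) (Ici 0 ×ˢ univ)) :
    ContinuousOn (fun q : ℝ × ℂ => fderiv ℝ (f q.1) q.2) (Ici 0 ×ˢ univ) := by
  have hu : UniqueDiffOn ℝ (Ici (0:ℝ) ×ˢ (univ : Set ℂ)) :=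
    (uniqueDiffOn_Ici 0).prod uniqueDiffOn_univ
  have h1 := hf.continuousOn_fderivWithin hu le_rfl
  have h2 : ContinuousOn (fun q : ℝ × ℂ =>
      (fderivWithin ℝ (fun q : ℝ × ℂ => f q.1 q.2) (Ici 0 ×ˢ univ) q).comp
        (ContinuousLinearMap.inr ℝ ℝ ℂ)) (Ici 0 ×ˢ univ) :=
    h1.clm_comp continuousOn_const
  refine h2.congr ?_
  rintro ⟨t, z⟩ hq
  have hd := (hf.differentiableOn one_ne_zero (t, z) hq).hasFDerivWithinAt
  have hin : HasFDerivAt (fun w : ℂ => ((t, w) : ℝ × ℂ)) (ContinuousLinearMap.inr ℝ ℝ ℂ) z :=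
    hasFDerivAt_prodMk_right t z
  have := hd.comp_hasFDerivAt z hin (Filter.Eventually.of_forall (fun w => ⟨hq.1, trivial⟩))
  exact this.fderiv

end slices

theorem ener : St_ENER := by
  intro v P h t ht
  have hv : ContinuousOn (fun q : ℝ × ℂ => v q.1 q.2) (Ici 0 ×ˢ univ) := h.v1.continuousOn
  have hDv := slice_fderiv h.v1
  have hDP := slice_fderiv h.p1
  set G : ℝ → ℂ → ℂ := fun s z => -(fderiv ℝ (v s) z (v s z)) -
    ⟨fderiv ℝ (P s) z 1, fderiv ℝ (P s) z I⟩ with hG
  have c1 : ContinuousOn (fun q : ℝ × ℂ => fderiv ℝ (v q.1) q.2 (v q.1 q.2)) (Ici 0 ×ˢ univ) :=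
    hDv.clm_apply hv
  have c2 : ContinuousOn (fun q : ℝ × ℂ => fderiv ℝ (P q.1) q.2 1) (Ici 0 ×ˢ univ) :=
    hDP.clm_apply continuousOn_const
  have c3 : ContinuousOn (fun q : ℝ × ℂ => fderiv ℝ (P q.1) q.2 I) (Ici 0 ×ˢ univ) :=
    hDP.clm_apply continuousOn_const
  have cG1 : ContinuousOn (fun q : ℝ × ℂ => (G q.1 q.2).re) (Ici 0 ×ˢ univ) := by
    simp only [hG, Complex.sub_re, Complex.neg_re]
    exact (Complex.continuous_re.comp_continuousOn c1).neg.sub c2
  have cG2 : ContinuousOn (fun q : ℝ × ℂ => (G q.1 q.2).im) (Ici 0 ×ˢ univ) := by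
    simp only [hG, Complex.sub_im, Complex.neg_im]
    exact (Complex.continuous_im.comp_continuousOn c1).neg.sub c3
  have cre : ContinuousOn (fun q : ℝ × ℂ => (v q.1 q.2).re) (Ici 0 ×ˢ univ) :=
    Complex.continuous_re.comp_continuousOn hv
  have cim : ContinuousOn (fun q : ℝ × ℂ => (v q.1 q.2).im) (Ici 0 ×ˢ univ) :=
    Complex.continuous_im.comp_continuousOn hv
  -- the velocity gradient in coordinates
  have hlin : ∀ s z, fderiv ℝ (v s) z (v s z) =
      (v s z).re • fderiv ℝ (v s) z 1 + (v s z).im • fderiv ℝ (v s) z I := by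
    intro s z
    have : v s z = (v s z).re • (1:ℂ) + (v s z).im • I := by
      apply Complex.ext <;> simp
    conv_lhs => rw [this]
    rw [map_add, map_smul, map_smul]
  -- facts at a fixed time
  have main : ∀ s, 0 ≤ s → (∫ z in St, ((v s z).re * (G s z).re + (v s z).im * (G s z).im) = 0) ∧
      ∫ z in St, (G s z).re = 0 := by
    intro s hs
    have hvs := slice_smooth h.v1 hs
    have hPs := slice_smooth h.p1 hs
    have hd : ∀ z, HasFDerivAt (v s) (fderiv ℝ (v s) z) z := fun z =>
      (hvs.differentiable one_ne_zero z).hasFDerivAt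
    have hdP : ∀ z, HasFDerivAt (P s) (fderiv ℝ (P s) z) z := fun z =>
      (hPs.differentiable one_ne_zero z).hasFDerivAt
    have hx := line_x hd
    have hy := line_y hd
    have hPx : ∀ x y : ℝ, HasDerivAt (fun r : ℝ => P s ⟨r, y⟩) (fderiv ℝ (P s) ⟨x, y⟩ 1) x :=
      fun x y => (hdP ⟨x, y⟩).comp_hasDerivAt x (dline_x y x)
    have hPy : ∀ x y : ℝ, HasDerivAt (fun r : ℝ => P s ⟨x, r⟩) (fderiv ℝ (P s) ⟨x, y⟩ I) y :=
      fun x y => (hdP ⟨x, y⟩).comp_hasDerivAt y (dline_y x y)
    have cv : Continuous (v s) := hvs.continuous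
    have cP : Continuous (P s) := hPs.continuous
    have cD : Continuous (fun z => fderiv ℝ (v s) z) := hvs.continuous_fderiv one_ne_zero
    have cDP : Continuous (fun z => fderiv ℝ (P s) z) := hPs.continuous_fderiv one_ne_zero
    have k1 : Continuous fun z => (fderiv ℝ (v s) z 1).re :=
      Complex.continuous_re.comp (cD.clm_apply continuous_const)
    have k2 : Continuous fun z => (fderiv ℝ (v s) z 1).im :=
      Complex.continuous_im.comp (cD.clm_apply continuous_const)
    have k3 : Continuous fun z => (fderiv ℝ (v s) z I).re :=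
      Complex.continuous_re.comp (cD.clm_apply continuous_const)
    have k4 : Continuous fun z => (fderiv ℝ (v s) z I).im :=
      Complex.continuous_im.comp (cD.clm_apply continuous_const)
    have k5 : Continuous fun z => fderiv ℝ (P s) z 1 := cDP.clm_apply continuous_const
    have k6 : Continuous fun z => fderiv ℝ (P s) z I := cDP.clm_apply continuous_const
    have k7 : Continuous fun z => (v s z).re := Complex.continuous_re.comp cv
    have k8 : Continuous fun z => (v s z).im := Complex.continuous_im.comp cv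
    have hpx : ∀ y : ℝ, v s ⟨Real.pi, y⟩ = v s ⟨-Real.pi, y⟩ := per_line (h.perx s hs)
    have hpP : ∀ y : ℝ, P s ⟨Real.pi, y⟩ = P s ⟨-Real.pi, y⟩ := by
      intro y
      have h3 := h.pperx s hs ⟨-Real.pi, y⟩
      have h2 : (⟨-Real.pi, y⟩ : ℂ) + 2 * Real.pi = ⟨Real.pi, y⟩ := by
        apply Complex.ext <;> simp
        ring
      rw [h2] at h3
      exact h3
    have hb := im_bot (h.sym s hs)
    have htp := im_top (h.sym s hs) (h.pery s hs)
    constructor
    · have hdiv := div_St
        (X := fun z => (v s z).re * (((v s z).re ^ 2 + (v s z).im ^ 2) / 2 + P s z))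
        (Y := fun z => (v s z).im * (((v s z).re ^ 2 + (v s z).im ^ 2) / 2 + P s z))
        (Xx := fun z => (fderiv ℝ (v s) z 1).re * (((v s z).re ^ 2 + (v s z).im ^ 2) / 2 + P s z) +
          (v s z).re * ((v s z).re * (fderiv ℝ (v s) z 1).re + (v s z).im *
            (fderiv ℝ (v s) z 1).im + fderiv ℝ (P s) z 1))
        (Yy := fun z => (fderiv ℝ (v s) z I).im * (((v s z).re ^ 2 + (v s z).im ^ 2) / 2 + P s z) +
          (v s z).im * ((v s z).re * (fderiv ℝ (v s) z I).re + (v s z).im *
            (fderiv ℝ (v s) z I).im + fderiv ℝ (P s) z I))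
        (by fun_prop) (by fun_prop)
        (by
          intro x y
          have h1 := re_d (hx x y)
          have h2 := im_d (hx x y)
          have h4 := h1.mul ((((h1.pow 2).add (h2.pow 2)).div_const 2).add (hPx x y))
          refine h4.congr_deriv ?_
          simp only [Pi.add_apply, Pi.pow_apply]
          push_cast
          ring)
        (by
          intro x y
          have h1 := re_d (hy x y)
          have h2 := im_d (hy x y)
          have h4 := h2.mul ((((h1.pow 2).add (h2.pow 2)).div_const 2).add (hPy x y))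
          refine h4.congr_deriv ?_
          simp only [Pi.add_apply, Pi.pow_apply]
          push_cast
          ring)
        (by
          intro y
          simp only [hpx y, hpP y])
      have hz : ∫ x in (-Real.pi)..Real.pi,
          ((v s ⟨x, Real.pi⟩).im * (((v s ⟨x, Real.pi⟩).re ^ 2 + (v s ⟨x, Real.pi⟩).im ^ 2) / 2 +
            P s ⟨x, Real.pi⟩) - (v s ⟨x, 0⟩).im * (((v s ⟨x, 0⟩).re ^ 2 +
            (v s ⟨x, 0⟩).im ^ 2) / 2 + P s ⟨x, 0⟩)) = 0 := by
        simp only [hb, htp, zero_mul, sub_zero]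
        simp
      rw [hz] at hdiv
      rw [← neg_eq_zero, ← integral_neg, ← hdiv]
      refine integral_congr_ae (Filter.Eventually.of_forall ?_)
      intro z
      have htr := h.tr s hs z
      have hax : (fderiv ℝ (v s) z 1).re = - (fderiv ℝ (v s) z I).im := by linarith
      simp only [hG, Complex.sub_re, Complex.neg_re, Complex.sub_im, Complex.neg_im, hlin s z,
        Complex.add_re, Complex.add_im, Complex.smul_re, Complex.smul_im, smul_eq_mul]
      rw [hax]
      ring
    · have hdiv := div_St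
        (X := fun z => (v s z).re ^ 2 + P s z)
        (Y := fun z => (v s z).re * (v s z).im)
        (Xx := fun z => 2 * (v s z).re * (fderiv ℝ (v s) z 1).re + fderiv ℝ (P s) z 1)
        (Yy := fun z => (fderiv ℝ (v s) z I).re * (v s z).im +
          (v s z).re * (fderiv ℝ (v s) z I).im)
        (by fun_prop) (by fun_prop)
        (by
          intro x y
          have h1 := re_d (hx x y)
          have h4 := (h1.pow 2).add (hPx x y)
          refine h4.congr_deriv ?_
          push_cast
          ring)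
        (by
          intro x y
          have h1 := re_d (hy x y)
          have h2 := im_d (hy x y)
          exact h1.mul h2)
        (by
          intro y
          simp only [hpx y, hpP y])
      have hz : ∫ x in (-Real.pi)..Real.pi,
          ((v s ⟨x, Real.pi⟩).re * (v s ⟨x, Real.pi⟩).im -
            (v s ⟨x, 0⟩).re * (v s ⟨x, 0⟩).im) = 0 := by
        simp only [hb, htp, mul_zero, sub_zero]
        simp
      rw [hz] at hdiv
      rw [← neg_eq_zero, ← integral_neg, ← hdiv]
      refine integral_congr_ae (Filter.Eventually.of_forall ?_)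
      intro z
      have htr := h.tr s hs z
      have hax : (fderiv ℝ (v s) z 1).re = - (fderiv ℝ (v s) z I).im := by linarith
      simp only [hG, Complex.sub_re, Complex.neg_re, hlin s z,
        Complex.add_re, Complex.smul_re, smul_eq_mul]
      rw [hax]
      ring
  constructor
  · refine cons_mean (f := fun s z => ‖v s z‖ ^ 2)
      (H := fun s z => 2 * ((v s z).re * (G s z).re + (v s z).im * (G s z).im))
      (hv.norm.pow 2) (continuousOn_const.mul ((cre.mul cG1).add (cim.mul cG2))) ?_ ?_ ht
    · intro s hs z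
      have hm : HasDerivAt (fun s => v s z) (G s z) s := h.mom s hs z
      have h1 := re_d hm
      have h2 := im_d hm
      have h3 := (h1.pow 2).add (h2.pow 2)
      have e : (fun s => ‖v s z‖ ^ 2) = fun s => (v s z).re ^ 2 + (v s z).im ^ 2 := by
        funext s
        rw [Complex.sq_norm, Complex.normSq_apply]
        ring
      rw [e]
      refine h3.congr_deriv ?_
      push_cast
      ring
    · intro s hs
      rw [integral_const_mul, (main s hs).1, mul_zero]
  · refine cons_mean (f := fun s z => (v s z).re) (H := fun s z => (G s z).re)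
      cre cG1 ?_ ?_ ht
    · intro s hs z
      have hm : HasDerivAt (fun s => v s z) (G s z) s := h.mom s hs z
      exact re_d hm
    · intro s hs
      exact (main s hs).2

end Run7.h664.E3
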