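import Pool.Agent.Run7.h664.E3.Rect

set_option autoImplicit false

open MeasureTheory Set Complex

namespace Run7.h664.E3

open Run7.h148.E3

theorem continuous_v {v : ℝ → ℂ → ℂ} {D : ℝ → ℂ → ℂ →L[ℝ] ℂ} (h : Planar v D) {t : ℝ}
    (ht : 0 ≤ t) : Continuous (v t) :=
  h.cv.comp_continuous (f := fun z : ℂ => (t, z)) (by fun_prop) (fun _ => ⟨ht, trivial⟩)

theorem continuous_D {v : ℝ → ℂ → ℂ} {D : ℝ → ℂ → ℂ →L[ℝ] ℂ} (h : Planar v D) {t : ℝ}
    (ht : 0 ≤ t) : Continuous (D t) :=
  h.cD.comp_continuous (f := fun z : ℂ => (t, z)) (by fun_prop) (fun _ => ⟨ht, trivial⟩)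

section lines

variable {f : ℂ → ℂ} {L : ℂ → ℂ →L[ℝ] ℂ}

theorem line_x (h : ∀ z, HasFDerivAt f (L z) z) (x y : ℝ) :
    HasDerivAt (fun s : ℝ => f ⟨s, y⟩) (L ⟨x, y⟩ 1) x :=
  (h ⟨x, y⟩).comp_hasDerivAt x (dline_x y x)

theorem line_y (h : ∀ z, HasFDerivAt f (L z) z) (x y : ℝ) :
    HasDerivAt (fun s : ℝ => f ⟨x, s⟩) (L ⟨x, y⟩ I) y :=
  (h ⟨x, y⟩).comp_hasDerivAt y (dline_y x y)

theorem re_d {g : ℝ → ℂ} {g' : ℂ} {x : ℝ} (h : HasDerivAt g g' x) :
    HasDerivAt (fun s => (g s).re) g'.re x :=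
  Complex.reCLM.hasFDerivAt.comp_hasDerivAt x h

theorem im_d {g : ℝ → ℂ} {g' : ℂ} {x : ℝ} (h : HasDerivAt g g' x) :
    HasDerivAt (fun s => (g s).im) g'.im x :=
  Complex.imCLM.hasFDerivAt.comp_hasDerivAt x h

end lines

theorem im_bot {w : ℂ → ℂ} (hs : ∀ z, w ((starRingEnd ℂ) z) = (starRingEnd ℂ) (w z)) (x : ℝ) :
    (w ⟨x, 0⟩).im = 0 := by
  have h := hs ⟨x, 0⟩
  have h2 : (starRingEnd ℂ) (⟨x, 0⟩ : ℂ) = ⟨x, 0⟩ := by apply Complex.ext <;> simp
  rw [h2] at h
  have := congrArg Complex.im h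
  simp only [Complex.conj_im] at this
  linarith

theorem im_top {w : ℂ → ℂ} (hs : ∀ z, w ((starRingEnd ℂ) z) = (starRingEnd ℂ) (w z))
    (hp : ∀ z, w (z + 2 * Real.pi * I) = w z) (x : ℝ) :
    (w ⟨x, Real.pi⟩).im = 0 := by
  have h := hs ⟨x, Real.pi⟩
  have h3 := hp ((starRingEnd ℂ) (⟨x, Real.pi⟩ : ℂ))
  have h2 : (starRingEnd ℂ) (⟨x, Real.pi⟩ : ℂ) + 2 * Real.pi * I = ⟨x, Real.pi⟩ := by
    apply Complex.ext <;> simp
    ring
  rw [h2, h] at h3
  have := congrArg Complex.im h3
  simp only [Complex.conj_im] at this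
  linarith

theorem per_line {w : ℂ → ℂ} (hp : ∀ z, w (z + 2 * Real.pi) = w z) (y : ℝ) :
    w ⟨Real.pi, y⟩ = w ⟨-Real.pi, y⟩ := by
  have h := hp ⟨-Real.pi, y⟩
  have h2 : (⟨-Real.pi, y⟩ : ℂ) + 2 * Real.pi = ⟨Real.pi, y⟩ := by
    apply Complex.ext <;> simp
    ring
  rw [h2] at h
  exact h

section key

variable {v : ℝ → ℂ → ℂ} {D : ℝ → ℂ → ℂ →L[ℝ] ℂ}

theorem psi_mk (t x y : ℝ) : psi v t ⟨x, y⟩ =
    - ∫ s in (0:ℝ)..y, ((v t ⟨x, s⟩).re - mn v) := rfl

theorem continuous_psi (h : Planar v D) {t : ℝ} (ht : 0 ≤ t) : Continuous (psi v t) := by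
  have hv := continuous_v h ht
  unfold psi
  refine Continuous.neg ?_
  refine intervalIntegral.continuous_parametric_intervalIntegral_of_continuous
    (f := fun (z : ℂ) (y : ℝ) => (v t ⟨z.re, y⟩).re - mn v) ?_ Complex.continuous_im
  have hc : Continuous (fun p : ℂ × ℝ => (⟨p.1.re, p.2⟩ : ℂ)) := by
    have : (fun p : ℂ × ℝ => (⟨p.1.re, p.2⟩ : ℂ)) =
        fun p : ℂ × ℝ => ((p.1.re : ℝ) : ℂ) + (p.2 : ℝ) * I := by
      funext p; apply Complex.ext <;> simp
    rw [this]; fun_prop
  exact (Complex.continuous_re.comp (hv.comp hc)).sub continuous_const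

theorem psi_dy (h : Planar v D) {t : ℝ} (ht : 0 ≤ t) (x y : ℝ) :
    HasDerivAt (fun s : ℝ => psi v t ⟨x, s⟩) (-((v t ⟨x, y⟩).re - mn v)) y := by
  have hv := continuous_v h ht
  have hc : Continuous (fun s : ℝ => (v t ⟨x, s⟩).re - mn v) :=
    (Complex.continuous_re.comp (hv.comp (cont_y x))).sub continuous_const
  exact (intervalIntegral.integral_hasDerivAt_right (hc.intervalIntegrable _ _)
    (hc.stronglyMeasurableAtFilter _ _) hc.continuousAt).neg

theorem psi_shift (h : Planar v D) {t : ℝ} (ht : 0 ≤ t) (x y : ℝ) :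
    psi v t ⟨x, y⟩ = psi v t ⟨0, y⟩ + ∫ s in (0:ℝ)..x, (v t ⟨s, y⟩).im := by
  have hv := continuous_v h ht
  have hD := continuous_D h ht
  have hx := line_x (h.hD t ht)
  have hy := line_y (h.hD t ht)
  have c1 : Continuous fun z : ℂ => (D t z 1).re :=
    Complex.continuous_re.comp (hD.clm_apply continuous_const)
  have c2 : Continuous fun z : ℂ => (D t z I).im :=
    Complex.continuous_im.comp (hD.clm_apply continuous_const)
  have i1 : ∀ x0 : ℝ, IntervalIntegrable (fun s : ℝ => (v t ⟨x0, s⟩).re - mn v) volume 0 y :=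
    fun x0 => ((Complex.continuous_re.comp (hv.comp (cont_y x0))).sub
      continuous_const).intervalIntegrable _ _
  have e1 : ∀ s : ℝ, (v t ⟨x, s⟩).re - (v t ⟨0, s⟩).re =
      ∫ r in (0:ℝ)..x, (D t ⟨r, s⟩ 1).re := by
    intro s
    rw [intervalIntegral.integral_eq_sub_of_hasDerivAt (fun r _ => re_d (hx r s))
      ((c1.comp (cont_x s)).intervalIntegrable _ _)]
  have e2 : ∀ r : ℝ, (v t ⟨r, y⟩).im = ∫ s in (0:ℝ)..y, (D t ⟨r, s⟩ I).im := by
    intro r
    rw [intervalIntegral.integral_eq_sub_of_hasDerivAt (fun s _ => im_d (hy r s))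
      ((c2.comp (cont_y r)).intervalIntegrable _ _), im_bot (h.sym t ht) r, sub_zero]
  have hc : Continuous (fun p : ℝ × ℝ => (D t ⟨p.2, p.1⟩ 1).re) := by
    have : Continuous (fun p : ℝ × ℝ => (⟨p.2, p.1⟩ : ℂ)) :=
      Complex.equivRealProdCLM.symm.continuous.comp continuous_swap
    exact c1.comp this
  have e3 : psi v t ⟨x, y⟩ - psi v t ⟨0, y⟩ = ∫ s in (0:ℝ)..x, (v t ⟨s, y⟩).im := by
    rw [psi_mk, psi_mk]
    calc (- ∫ s in (0:ℝ)..y, ((v t ⟨x, s⟩).re - mn v)) - (- ∫ s in (0:ℝ)..y, ((v t ⟨0, s⟩).re - mn v))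
        = - ∫ s in (0:ℝ)..y, (((v t ⟨x, s⟩).re - mn v) - ((v t ⟨0, s⟩).re - mn v)) := by
          rw [intervalIntegral.integral_sub (i1 x) (i1 0)]; ring
      _ = - ∫ s in (0:ℝ)..y, ∫ r in (0:ℝ)..x, (D t ⟨r, s⟩ 1).re := by
          congr 1
          refine intervalIntegral.integral_congr ?_
          intro s _
          simp only
          rw [← e1 s]; ring
      _ = - ∫ r in (0:ℝ)..x, ∫ s in (0:ℝ)..y, (D t ⟨r, s⟩ 1).re := by
          congr 1
          refine intervalIntegral_intervalIntegral_swap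
            (F := fun s r => (D t ⟨r, s⟩ 1).re) ?_
          have : IntegrableOn (fun p : ℝ × ℝ => (D t ⟨p.2, p.1⟩ 1).re)
            (uIcc 0 y ×ˢ uIcc 0 x) := 
            hc.continuousOn.integrableOn_compact (isCompact_uIcc.prod isCompact_uIcc)
          exact this.mono_set (prod_mono uIoc_subset_uIcc uIoc_subset_uIcc)
      _ = ∫ r in (0:ℝ)..x, (v t ⟨r, y⟩).im := by
          rw [← intervalIntegral.integral_neg]
          refine intervalIntegral.integral_congr ?_
          intro r _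
          simp only
          rw [e2 r, ← intervalIntegral.integral_neg]
          refine intervalIntegral.integral_congr ?_
          intro s _
          simp only
          have := h.tr t ht ⟨r, s⟩
          linarith
  linarith

theorem psi_dx (h : Planar v D) {t : ℝ} (ht : 0 ≤ t) (x y : ℝ) :
    HasDerivAt (fun s : ℝ => psi v t ⟨s, y⟩) (v t ⟨x, y⟩).im x := by
  have hv := continuous_v h ht
  have hc : Continuous (fun s : ℝ => (v t ⟨s, y⟩).im) :=
    Complex.continuous_im.comp (hv.comp (cont_x y))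
  have h1 : (fun s : ℝ => psi v t ⟨s, y⟩) = fun s : ℝ => psi v t ⟨0, y⟩ +
      ∫ r in (0:ℝ)..s, (v t ⟨r, y⟩).im := by
    funext s; exact psi_shift h ht s y
  rw [h1]
  have := (intervalIntegral.integral_hasDerivAt_right (hc.intervalIntegrable 0 x)
    (hc.stronglyMeasurableAtFilter _ _) hc.continuousAt).const_add (psi v t ⟨0, y⟩)
  exact this

theorem psi_bot (t x : ℝ) : psi v t ⟨x, 0⟩ = 0 := by
  rw [psi_mk]; simp

theorem psi_per (h : Planar v D) {t : ℝ} (ht : 0 ≤ t) (y : ℝ) :
    psi v t ⟨Real.pi, y⟩ = psi v t ⟨-Real.pi, y⟩ := by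
  rw [psi_mk, psi_mk]
  congr 1
  refine intervalIntegral.integral_congr ?_
  intro s _
  simp only
  rw [per_line (h.perx t ht) s]

theorem int_one : ∫ _z in St, (1:ℝ) = 2 * Real.pi ^ 2 := by
  rw [int_St continuous_const]
  simp
  ring

theorem mean_v (h : Planar v D) {t : ℝ} (ht : 0 ≤ t) :
    ∫ z in St, ((v t z).re - mn v) = 0 := by
  have hv := continuous_v h ht
  have i1 : IntegrableOn (fun z => (v t z).re) St :=
    intOn_St (Complex.continuous_re.comp hv).continuousOn
  have i2 : IntegrableOn (fun _ : ℂ => mn v) St := intOn_St continuous_const.continuousOn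
  rw [integral_sub i1 i2, h.mean t ht]
  have h3 : ∫ _z in St, mn v = mn v * (2 * Real.pi ^ 2) := by
    rw [← int_one, ← integral_const_mul]; simp
  rw [h3, mn]
  have := Real.pi_pos
  field_simp
  ring

theorem psi_top (h : Planar v D) {t : ℝ} (ht : 0 ≤ t) (x : ℝ) :
    psi v t ⟨x, Real.pi⟩ = 0 := by
  have hv := continuous_v h ht
  have hc : ∀ x : ℝ, psi v t ⟨x, Real.pi⟩ = psi v t ⟨0, Real.pi⟩ := by
    intro x
    rw [psi_shift h ht x Real.pi]
    simp [im_top (h.sym t ht) (h.pery t ht)]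
  have h1 := mean_v h ht
  have hc2 : Continuous fun z => (v t z).re - mn v :=
    (Complex.continuous_re.comp hv).sub continuous_const
  rw [int_St hc2] at h1
  have h2 : ∫ x in (-Real.pi)..Real.pi, ∫ y in (0:ℝ)..Real.pi, ((v t ⟨x, y⟩).re - mn v) =
      ∫ x in (-Real.pi)..Real.pi, (- psi v t ⟨0, Real.pi⟩) := by
    refine intervalIntegral.integral_congr ?_
    intro s _
    simp only
    rw [← hc s, psi_mk, neg_neg]
  rw [h2] at h1
  simp only [intervalIntegral.integral_const, smul_eq_mul] at h1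
  rw [hc x]
  have hp := Real.pi_pos
  have : (Real.pi - -Real.pi) ≠ 0 := by
    have : Real.pi - -Real.pi = 2 * Real.pi := by ring
    rw [this]; positivity
  have := (mul_eq_zero.mp h1).resolve_left this
  linarith

/-- `|v - mean|²` -/
noncomputable def q2 (v : ℝ → ℂ → ℂ) (t : ℝ) (z : ℂ) : ℝ :=
  ((v t z).re - mn v) ^ 2 + (v t z).im ^ 2

theorem q2_cons (h : Planar v D) {t : ℝ} (ht : 0 ≤ t) :
    ∫ z in St, q2 v t z = ∫ z in St, q2 v 0 z := by
  have key : ∀ s : ℝ, 0 ≤ s → ∫ z in St, q2 v s z =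
      (∫ z in St, ‖v 0 z‖ ^ 2) - mn v ^ 2 * (2 * Real.pi ^ 2) := by
    intro s hs
    have hv := continuous_v h hs
    have e1 : ∀ z, q2 v s z = (‖v s z‖ ^ 2 - 2 * mn v * ((v s z).re - mn v)) - mn v ^ 2 * 1 := by
      intro z
      unfold q2
      rw [Complex.sq_norm, Complex.normSq_apply]
      ring
    have i1 : IntegrableOn (fun z => ‖v s z‖ ^ 2) St := intOn_St (hv.norm.pow 2).continuousOn
    have i2 : IntegrableOn (fun z => 2 * mn v * ((v s z).re - mn v)) St :=
      intOn_St (continuous_const.mul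
        ((Complex.continuous_re.comp hv).sub continuous_const)).continuousOn
    have i3 : IntegrableOn (fun _ : ℂ => mn v ^ 2 * (1:ℝ)) St :=
      intOn_St continuous_const.continuousOn
    have i12 : IntegrableOn (fun z => ‖v s z‖ ^ 2 - 2 * mn v * ((v s z).re - mn v)) St :=
      i1.sub i2
    simp_rw [e1]
    rw [integral_sub i12 i3, integral_sub i1 i2, integral_const_mul, integral_const_mul,
      mean_v h hs, int_one, h.energy s hs]
    ring
  rw [key t ht, key 0 le_rfl]

theorem q2_pos (h : Planar v D) (hne : ∃ z, v 0 z ≠ v 0 0) : 0 < ∫ z in St, q2 v 0 z := by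
  have hv := continuous_v h le_rfl
  have hq : Continuous (q2 v 0) :=
    (((Complex.continuous_re.comp hv).sub continuous_const).pow 2).add
      ((Complex.continuous_im.comp hv).pow 2)
  have hnn : ∀ z, 0 ≤ q2 v 0 z := fun z => by unfold q2; positivity
  rcases (integral_nonneg hnn : 0 ≤ ∫ z in St, q2 v 0 z).eq_or_lt with h0 | h0
  swap
  · exact h0
  exfalso
  have hz : q2 v 0 =ᵐ[volume.restrict St] 0 :=
    (integral_eq_zero_iff_of_nonneg hnn (intOn_St hq.continuousOn)).mp h0.symm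
  set U : Set ℂ := {z | -Real.pi < z.re ∧ z.re < Real.pi ∧ 0 < z.im ∧ z.im < Real.pi} with hU
  have hUo : IsOpen U := by
    have : U = (Complex.re ⁻¹' Ioo (-Real.pi) Real.pi) ∩ (Complex.im ⁻¹' Ioo 0 Real.pi) := by
      ext z; simp [hU]; tauto
    rw [this]
    exact (isOpen_Ioo.preimage Complex.continuous_re).inter
      (isOpen_Ioo.preimage Complex.continuous_im)
  have hUs : U ⊆ St := fun z hz => ⟨hz.1.le, hz.2.1, hz.2.2.1.le, hz.2.2.2.le⟩
  have hz2 : q2 v 0 =ᵐ[volume.restrict U] 0 := ae_restrict_of_ae_restrict_of_subset hUs hz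
  have hz3 : EqOn (q2 v 0) 0 U :=
    Measure.eqOn_open_of_ae_eq hz2 hUo hq.continuousOn continuous_const.continuousOn
  have hcl : Sc ⊆ closure U := by
    intro z hz
    have hp := Real.pi_pos
    -- segment to the centre
    have hseq : Filter.Tendsto (fun n : ℕ => (1 - 1 / ((n:ℝ) + 1)) • z +
        (1 / ((n:ℝ) + 1)) • (⟨0, Real.pi / 2⟩ : ℂ)) Filter.atTop (nhds z) := by
      have h1 : Filter.Tendsto (fun n : ℕ => 1 / ((n:ℝ) + 1)) Filter.atTop (nhds 0) :=
        tendsto_one_div_add_atTop_nhds_zero_nat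
      have h2 := ((tendsto_const_nhds (x := (1:ℝ))).sub h1).smul (tendsto_const_nhds (x := z))
      have h3 := h1.smul (tendsto_const_nhds (x := (⟨0, Real.pi / 2⟩ : ℂ)))
      have h4 := h2.add h3
      simpa using h4
    refine mem_closure_of_tendsto hseq (Filter.Eventually.of_forall ?_)
    intro n
    have hn : 0 < 1 / ((n:ℝ) + 1) := by positivity
    have hn1 : 1 / ((n:ℝ) + 1) ≤ 1 := by
      rw [div_le_one (by positivity)]
      have : (0:ℝ) ≤ n := Nat.cast_nonneg n
      linarith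
    set e := 1 / ((n:ℝ) + 1) with he
    have hz1 := hz.1
    have hz2 := hz.2.1
    have hz3 := hz.2.2.1
    have hz4 := hz.2.2.2
    have hr : ((1 - e) • z + e • (⟨0, Real.pi / 2⟩ : ℂ)).re = (1 - e) * z.re := by simp
    have hi : ((1 - e) • z + e • (⟨0, Real.pi / 2⟩ : ℂ)).im =
        (1 - e) * z.im + e * (Real.pi / 2) := by simp
    refine ⟨?_, ?_, ?_, ?_⟩
    · rw [hr]; nlinarith
    · rw [hr]; nlinarith
    · rw [hi]; nlinarith
    · rw [hi]; nlinarith
  have hz4 : ∀ z ∈ Sc, q2 v 0 z = 0 := by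
    intro z hz
    have hcl2 : closure U ⊆ {z | q2 v 0 z = 0} :=
      closure_minimal (fun w hw => hz3 hw) (isClosed_eq hq continuous_const)
    exact hcl2 (hcl hz)
  have hv0 : ∀ z ∈ Sc, v 0 z = mn v := by
    intro z hz
    have := hz4 z hz
    unfold q2 at this
    have h1 : (v 0 z).re - mn v = 0 := by nlinarith [sq_nonneg ((v 0 z).re - mn v), sq_nonneg (v 0 z).im]
    have h2 : (v 0 z).im = 0 := by nlinarith [sq_nonneg ((v 0 z).re - mn v), sq_nonneg (v 0 z).im]
    apply Complex.ext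
    · simp; linarith
    · simp [h2]
  have hall : ∀ z, v 0 z = mn v := by
    intro z
    have hp := Real.pi_pos
    have hpx : Function.Periodic (v 0) ((2 * Real.pi : ℝ) : ℂ) := by
      intro z; have := h.perx 0 le_rfl z; push_cast; exact this
    have hpy : Function.Periodic (v 0) (((2 * Real.pi : ℝ) : ℂ) * I) := by
      intro z; have := h.pery 0 le_rfl z; push_cast; exact this
    obtain ⟨n, hn⟩ : ∃ n : ℤ, -Real.pi ≤ z.re - n * (2 * Real.pi) ∧
        z.re - n * (2 * Real.pi) ≤ Real.pi := by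
      refine ⟨round (z.re / (2 * Real.pi)), ?_⟩
      have := abs_sub_round (z.re / (2 * Real.pi))
      rw [abs_le] at this
      have e : z.re = (z.re / (2 * Real.pi)) * (2 * Real.pi) := by field_simp
      constructor <;> nlinarith [this.1, this.2]
    obtain ⟨k, hk⟩ : ∃ k : ℤ, -Real.pi ≤ z.im - k * (2 * Real.pi) ∧
        z.im - k * (2 * Real.pi) ≤ Real.pi := by
      refine ⟨round (z.im / (2 * Real.pi)), ?_⟩
      have := abs_sub_round (z.im / (2 * Real.pi))
      rw [abs_le] at this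
      have e : z.im = (z.im / (2 * Real.pi)) * (2 * Real.pi) := by field_simp
      constructor <;> nlinarith [this.1, this.2]
    have e1 : v 0 (z - n • ((2 * Real.pi : ℝ) : ℂ) - k • (((2 * Real.pi : ℝ) : ℂ) * I)) = v 0 z := by
      rw [hpy.sub_zsmul_eq, hpx.sub_zsmul_eq]
    set z' := z - n • ((2 * Real.pi : ℝ) : ℂ) - k • (((2 * Real.pi : ℝ) : ℂ) * I) with hz'
    have hre : z'.re = z.re - n * (2 * Real.pi) := by
      rw [hz']; simp
    have him : z'.im = z.im - k * (2 * Real.pi) := by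
      rw [hz']; simp
    rw [← e1]
    rcases le_total 0 z'.im with hi | hi
    · exact hv0 z' ⟨by rw [hre]; exact hn.1, by rw [hre]; exact hn.2, hi, by rw [him]; exact hk.2⟩
    · have h5 := hv0 ((starRingEnd ℂ) z') ⟨by simp only [Complex.conj_re]; rw [hre]; exact hn.1,
        by simp only [Complex.conj_re]; rw [hre]; exact hn.2,
        by simp only [Complex.conj_im]; linarith,
        by simp only [Complex.conj_im]; rw [him]; linarith [hk.1]⟩
      rw [h.sym 0 le_rfl z'] at h5
      have := congrArg (starRingEnd ℂ) h5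
      simpa using this
  obtain ⟨z, hz⟩ := hne
  exact hz (by rw [hall z, hall 0])

end key

open Run7.h148.E3 in
theorem key : St_KEY := by
  intro v D h hne
  refine ⟨(∫ z in St, q2 v 0 z) / 2, by have := q2_pos h hne; linarith, ?_⟩
  intro t ht
  have hv := continuous_v h ht
  have hD := continuous_D h ht
  have hpsi := continuous_psi h ht
  have hx := line_x (h.hD t ht)
  have hy := line_y (h.hD t ht)
  have cax : Continuous fun z : ℂ => (D t z 1).re :=
    Complex.continuous_re.comp (hD.clm_apply continuous_const)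
  have cay : Continuous fun z : ℂ => (D t z I).re :=
    Complex.continuous_re.comp (hD.clm_apply continuous_const)
  have cbx : Continuous fun z : ℂ => (D t z 1).im :=
    Complex.continuous_im.comp (hD.clm_apply continuous_const)
  have cby : Continuous fun z : ℂ => (D t z I).im :=
    Complex.continuous_im.comp (hD.clm_apply continuous_const)
  have ca : Continuous fun z : ℂ => (v t z).re - mn v :=
    (Complex.continuous_re.comp hv).sub continuous_const
  have cb : Continuous fun z : ℂ => (v t z).im := Complex.continuous_im.comp hv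
  have cy : Continuous fun z : ℂ => z.im := Complex.continuous_im
  set m := mn v with hm
  have hdiv := div_St
    (X := fun z => - z.im * ((v t z).re - m) * (v t z).im - (v t z).im * psi v t z)
    (Y := fun z => z.im * (((v t z).re - m) ^ 2 - (v t z).im ^ 2) / 2 +
      ((v t z).re - m) * psi v t z)
    (Xx := fun z => (- z.im * (D t z 1).re * (v t z).im - z.im * ((v t z).re - m) * (D t z 1).im)
      - ((D t z 1).im * psi v t z + (v t z).im * (v t z).im))
    (Yy := fun z => (((v t z).re - m) ^ 2 - (v t z).im ^ 2) / 2 +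
      z.im * (((v t z).re - m) * (D t z I).re - (v t z).im * (D t z I).im) +
      ((D t z I).re * psi v t z - ((v t z).re - m) * ((v t z).re - m)))
    (by fun_prop) (by fun_prop)
    (by
      intro x y
      have h1 := (re_d (hx x y)).sub_const m
      have h2 := im_d (hx x y)
      have h3 := psi_dx h ht x y
      have h4 := ((h1.const_mul (-y)).mul h2).sub (h2.mul h3)
      refine h4.congr_deriv ?_
      simp only
      ring)
    (by
      intro x y
      have h1 := (re_d (hy x y)).sub_const m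
      have h2 := im_d (hy x y)
      have h3 := psi_dy h ht x y
      have h4 := (((hasDerivAt_id y).mul ((h1.pow 2).sub (h2.pow 2))).div_const 2).add (h1.mul h3)
      refine h4.congr_deriv ?_
      simp only [id_eq, Pi.sub_apply, Pi.pow_apply, ← hm]
      push_cast
      ring)
    (by
      intro y
      simp only [per_line (h.perx t ht) y, psi_per h ht y])
  have hR : 0 ≤ ∫ x in (-Real.pi)..Real.pi,
      ((((⟨x, Real.pi⟩ : ℂ).im * (((v t ⟨x, Real.pi⟩).re - m) ^ 2 - (v t ⟨x, Real.pi⟩).im ^ 2) / 2 +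
      ((v t ⟨x, Real.pi⟩).re - m) * psi v t ⟨x, Real.pi⟩)) -
      ((⟨x, 0⟩ : ℂ).im * (((v t ⟨x, 0⟩).re - m) ^ 2 - (v t ⟨x, 0⟩).im ^ 2) / 2 +
      ((v t ⟨x, 0⟩).re - m) * psi v t ⟨x, 0⟩)) := by
    refine intervalIntegral.integral_nonneg (by linarith [Real.pi_pos]) ?_
    intro x _
    simp only [im_top (h.sym t ht) (h.pery t ht), psi_top h ht, psi_bot, zero_mul, mul_zero,
      zero_div, add_zero, sub_zero]
    have := Real.pi_pos
    have h0 : (0:ℝ) ^ 2 = 0 := by norm_num
    rw [h0, sub_zero]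
    positivity
  rw [← hdiv] at hR
  have hsplit : ∫ z in St, om D t z * gg v t z =
      (∫ z in St, (((- z.im * (D t z 1).re * (v t z).im - z.im * ((v t z).re - m) * (D t z 1).im)
      - ((D t z 1).im * psi v t z + (v t z).im * (v t z).im)) +
      ((((v t z).re - m) ^ 2 - (v t z).im ^ 2) / 2 +
      z.im * (((v t z).re - m) * (D t z I).re - (v t z).im * (D t z I).im) +
      ((D t z I).re * psi v t z - ((v t z).re - m) * ((v t z).re - m))))) +
      ∫ z in St, (3 / 2 * (v t z).im ^ 2 + 1 / 2 * ((v t z).re - m) ^ 2) := by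
    rw [← integral_add (intOn_St (by fun_prop)) (intOn_St (by fun_prop))]
    refine integral_congr_ae (Filter.Eventually.of_forall ?_)
    intro z
    have htr := h.tr t ht z
    have hax : (D t z 1).re = - (D t z I).im := by linarith
    simp only [om, gg, ← hm]
    rw [hax]
    ring
  have hlow : (∫ z in St, q2 v 0 z) / 2 ≤
      ∫ z in St, (3 / 2 * (v t z).im ^ 2 + 1 / 2 * ((v t z).re - m) ^ 2) := by
    rw [← q2_cons h ht]
    have : (∫ z in St, q2 v t z) / 2 = ∫ z in St, (1 / 2) * q2 v t z := by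
      rw [integral_const_mul]; ring
    rw [this]
    refine integral_mono (intOn_St (by unfold q2; fun_prop)) (intOn_St (by fun_prop)) ?_
    intro z
    simp only [q2, ← hm]
    nlinarith [sq_nonneg (v t z).im]
  rw [hsplit]
  linarith

end Run7.h664.E3
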