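import Pool.Agent.Run7.h148.E3.Iface

set_option autoImplicit false

open MeasureTheory Set Complex

namespace Run7.h664.E3

open Run7.h148.E3

theorem St_pre : St = Complex.measurableEquivRealProd ⁻¹'
    (Ico (-Real.pi) Real.pi ×ˢ Icc 0 Real.pi) := by
  ext z
  simp only [St, mem_ofPred_eq, mem_preimage, mem_prod, mem_Ico, mem_Icc,
    Complex.measurableEquivRealProd_apply]
  tauto

theorem meas_St : MeasurableSet St := by
  rw [St_pre]
  exact Complex.measurableEquivRealProd.measurable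
    (measurableSet_Ico.prod measurableSet_Icc)

/-- the closed rectangle -/
def Sc : Set ℂ := {z | -Real.pi ≤ z.re ∧ z.re ≤ Real.pi ∧ 0 ≤ z.im ∧ z.im ≤ Real.pi}

theorem St_sub : St ⊆ Sc := fun _ h => ⟨h.1, h.2.1.le, h.2.2.1, h.2.2.2⟩

theorem Sc_comp : IsCompact Sc := by
  have : Sc = Complex.equivRealProdCLM.symm '' (Icc (-Real.pi) Real.pi ×ˢ Icc 0 Real.pi) := by
    ext z
    constructor
    · intro h
      exact ⟨(z.re, z.im), ⟨⟨h.1, h.2.1⟩, ⟨h.2.2.1, h.2.2.2⟩⟩, by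
        apply Complex.ext <;> simp [Complex.equivRealProdCLM_symm_apply]⟩
    · rintro ⟨p, ⟨hp1, hp2⟩, rfl⟩
      simp only [Complex.equivRealProdCLM_symm_apply]
      refine ⟨?_, ?_, ?_, ?_⟩ <;> simp [hp1.1, hp1.2, hp2.1, hp2.2]
  rw [this]
  exact (isCompact_Icc.prod isCompact_Icc).image Complex.equivRealProdCLM.symm.continuous

theorem vol_St : volume St ≠ ⊤ :=
  ((measure_mono St_sub).trans_lt Sc_comp.measure_lt_top).ne

theorem intOn_St {f : ℂ → ℝ} (hf : ContinuousOn f Sc) : IntegrableOn f St :=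
  (hf.integrableOn_compact Sc_comp).mono_set St_sub

theorem int_St {f : ℂ → ℝ} (hf : Continuous f) :
    ∫ z in St, f z = ∫ x in (-Real.pi)..Real.pi, ∫ y in (0:ℝ)..Real.pi, f ⟨x, y⟩ := by
  have h1 : ∫ z in St, f z = ∫ p in (Ico (-Real.pi) Real.pi ×ˢ Icc 0 Real.pi), f ⟨p.1, p.2⟩ := by
    rw [St_pre]
    have := (Complex.volume_preserving_equiv_real_prod).setIntegral_preimage_emb
      Complex.measurableEquivRealProd.measurableEmbedding
      (fun p : ℝ × ℝ => f ⟨p.1, p.2⟩) (Ico (-Real.pi) Real.pi ×ˢ Icc 0 Real.pi)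
    rw [← this]
    rfl
  have hc : Continuous (fun p : ℝ × ℝ => f ⟨p.1, p.2⟩) := by
    have : Continuous (fun p : ℝ × ℝ => (⟨p.1, p.2⟩ : ℂ)) :=
      Complex.equivRealProdCLM.symm.continuous
    exact hf.comp this
  have hi : IntegrableOn (fun p : ℝ × ℝ => f ⟨p.1, p.2⟩)
      (Ico (-Real.pi) Real.pi ×ˢ Icc 0 Real.pi) (volume.prod volume) := by
    refine IntegrableOn.mono_set ?_ (prod_mono Ico_subset_Icc_self (subset_refl _))
    exact hc.continuousOn.integrableOn_compact (isCompact_Icc.prod isCompact_Icc)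
  rw [h1, ← Measure.volume_eq_prod] at *
  rw [Measure.volume_eq_prod, setIntegral_prod _ hi,
    intervalIntegral.integral_of_le (by linarith [Real.pi_pos]),
    integral_Ico_eq_integral_Ioc]
  refine setIntegral_congr_fun measurableSet_Ioc ?_
  intro x _
  simp only
  rw [intervalIntegral.integral_of_le Real.pi_pos.le, integral_Icc_eq_integral_Ioc]

theorem int_St' {f : ℂ → ℝ} (hf : Continuous f) :
    ∫ z in St, f z = ∫ y in (0:ℝ)..Real.pi, ∫ x in (-Real.pi)..Real.pi, f ⟨x, y⟩ := by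
  rw [int_St hf]
  have hc : Continuous (fun p : ℝ × ℝ => f ⟨p.1, p.2⟩) := by
    have : Continuous (fun p : ℝ × ℝ => (⟨p.1, p.2⟩ : ℂ)) :=
      Complex.equivRealProdCLM.symm.continuous
    exact hf.comp this
  refine intervalIntegral_intervalIntegral_swap ?_
  have : IntegrableOn (fun p : ℝ × ℝ => f ⟨p.1, p.2⟩)
      (Icc (-Real.pi) Real.pi ×ˢ Icc 0 Real.pi) (volume.prod volume) :=
    hc.continuousOn.integrableOn_compact (isCompact_Icc.prod isCompact_Icc)
  refine this.mono_set (prod_mono ?_ ?_)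
  · rw [uIoc_of_le (by linarith [Real.pi_pos])]; exact Ioc_subset_Icc_self
  · rw [uIoc_of_le Real.pi_pos.le]; exact Ioc_subset_Icc_self

theorem dline_x (y x : ℝ) : HasDerivAt (fun s : ℝ => (⟨s, y⟩ : ℂ)) 1 x := by
  have h : (fun s : ℝ => (⟨s, y⟩ : ℂ)) = fun s : ℝ => (s : ℂ) + y * I := by
    funext s; apply Complex.ext <;> simp
  rw [h]
  exact (Complex.ofRealCLM.hasDerivAt (x := x)).add_const _

theorem dline_y (x y : ℝ) : HasDerivAt (fun s : ℝ => (⟨x, s⟩ : ℂ)) I y := by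
  have h : (fun s : ℝ => (⟨x, s⟩ : ℂ)) = fun s : ℝ => (s : ℂ) * I + x := by
    funext s; apply Complex.ext <;> simp
  rw [h]
  have := ((Complex.ofRealCLM.hasDerivAt (x := y)).mul_const I).add_const (x : ℂ)
  simpa using this

theorem cont_x (y : ℝ) : Continuous (fun x : ℝ => (⟨x, y⟩ : ℂ)) := by
  have h : (fun x : ℝ => (⟨x, y⟩ : ℂ)) = fun x : ℝ => (x : ℂ) + y * I := by
    funext x; apply Complex.ext <;> simp
  rw [h]; fun_prop

theorem cont_y (x : ℝ) : Continuous (fun y : ℝ => (⟨x, y⟩ : ℂ)) := by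
  have h : (fun y : ℝ => (⟨x, y⟩ : ℂ)) = fun y : ℝ => (x : ℂ) + y * I := by
    funext x; apply Complex.ext <;> simp
  rw [h]; fun_prop

/-- divergence theorem on the half cell -/
theorem div_St {X Y Xx Yy : ℂ → ℝ} (hXx : Continuous Xx) (hYy : Continuous Yy)
    (hX : ∀ x y : ℝ, HasDerivAt (fun s : ℝ => X ⟨s, y⟩) (Xx ⟨x, y⟩) x)
    (hY : ∀ x y : ℝ, HasDerivAt (fun s : ℝ => Y ⟨x, s⟩) (Yy ⟨x, y⟩) y)
    (hper : ∀ y : ℝ, X ⟨Real.pi, y⟩ = X ⟨-Real.pi, y⟩) :
    ∫ z in St, (Xx z + Yy z) =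
      ∫ x in (-Real.pi)..Real.pi, (Y ⟨x, Real.pi⟩ - Y ⟨x, 0⟩) := by
  rw [integral_add (intOn_St hXx.continuousOn) (intOn_St hYy.continuousOn)]
  have h1 : ∫ z in St, Xx z = 0 := by
    rw [int_St' hXx]
    have : ∀ y : ℝ, ∫ x in (-Real.pi)..Real.pi, Xx ⟨x, y⟩ = 0 := by
      intro y
      rw [intervalIntegral.integral_eq_sub_of_hasDerivAt (fun x _ => hX x y)
        ((hXx.comp (cont_x y)).intervalIntegrable _ _), hper y, sub_self]
    simp [this]
  have h2 : ∫ z in St, Yy z =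
      ∫ x in (-Real.pi)..Real.pi, (Y ⟨x, Real.pi⟩ - Y ⟨x, 0⟩) := by
    rw [int_St hYy]
    refine intervalIntegral.integral_congr ?_
    intro x _
    simp only
    rw [intervalIntegral.integral_eq_sub_of_hasDerivAt (fun y _ => hY x y)
        ((hYy.comp (cont_y x)).intervalIntegrable _ _)]
  rw [h1, h2, zero_add]

end Run7.h664.E3
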